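import Pool.Agent.N879.GD.Stm
import Pool.Agent.Y587.GP.V

/-!
Project GD (helper1, statements by helper879): `S_SUM → S_OFI` by the Mellin-Barnes formula of `V`.
-/

set_option autoImplicit false

namespace Pool.Agent.J4H25.GD

open Complex Filter Topology MeasureTheory Set
open Pool.Agent.Y969.GP (ff V ht lam PS co PX)
open Pool.Agent.N879.GD

noncomputable section

/-- the weight of `GG` -/
def gw (b : ℕ) (T u : ℝ) : ℝ := (u / T) ^ b * Real.exp (-(u / T)) / u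

lemma gw_nonneg (b : ℕ) (T u : ℝ) (hT : 0 < T) (hu : 0 < u) : 0 ≤ gw b T u := by
  unfold gw
  positivity

lemma gw_int (b : ℕ) (T : ℝ) (hb : 1 ≤ b) (hT : 0 < T) : IntegrableOn (gw b T) (Ioi 0) := by
  have h0 := Real.GammaIntegral_convergent (s := (b : ℝ)) (by exact_mod_cast hb)
  have h1 := (integrableOn_Ioi_comp_mul_left_iff
    (fun x : ℝ => Real.exp (-x) * x ^ ((b : ℝ) - 1)) 0 (inv_pos.2 hT)).2 (by simpa using h0)
  have h2 := h1.const_mul T⁻¹
  refine IntegrableOn.congr_fun h2 (fun u hu => ?_) measurableSet_Ioi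
  have hu : 0 < u := hu
  have h3 : (T⁻¹ * u) ^ ((b : ℝ) - 1) = (T⁻¹ * u) ^ b / (T⁻¹ * u) := by
    rw [Real.rpow_sub_one (by positivity), Real.rpow_natCast]
  simp only [gw]
  rw [h3, show u / T = T⁻¹ * u by rw [div_eq_mul_inv, mul_comm]]
  field_simp

/-- the kernel -/
def KK (σ T y : ℝ) : ℂ := ((Real.pi⁻¹ * T ^ σ : ℝ) : ℂ) *
  (cexp (-((σ + I * y) * (Real.log (2 * Real.pi) : ℝ))) * cexp ((σ + I * y) ^ 2) / (σ + I * y))

/-- the coefficient of the pair -/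
def cp (σ : ℝ) (p : ℕ × ℕ) (y : ℝ) : ℂ :=
  (((√((p.1 : ℝ) * p.2))⁻¹ : ℝ) : ℂ) * cexp (-((σ + I * y) * (Real.log ((p.1 : ℝ) * p.2) : ℝ)))

/-- the double integrand -/
def Ph (σ T τ : ℝ) (b : ℕ) (p : ℕ × ℕ) (u y : ℝ) : ℂ :=
  KK σ T y * cp σ p y * ((gw b T u : ℂ) *
    cexp (I * ((u * (Real.log p.2 - Real.log p.1) - (τ - y) * Real.log u : ℝ) : ℂ)))

lemma s_ne (σ y : ℝ) (hσ : 0 < σ) : (σ : ℂ) + I * y ≠ 0 := by
  intro h
  have := congrArg Complex.re h
  simp at this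
  exact hσ.ne' this

lemma norm_s (σ y : ℝ) (hσ : 0 < σ) : σ ≤ ‖(σ : ℂ) + I * y‖ := by
  have h := Complex.re_le_norm ((σ : ℂ) + I * y)
  simpa using h

lemma norm_KK (σ T y : ℝ) (hσ : 0 < σ) (hT : 0 < T) :
    ‖KK σ T y‖ ≤ Real.pi⁻¹ * T ^ σ * (Real.exp (σ ^ 2) / σ) * Real.exp (-1 * y ^ 2) := by
  unfold KK
  have hp := Real.pi_pos
  have hTs : 0 < T ^ σ := Real.rpow_pos_of_pos hT _
  rw [norm_mul, norm_div, norm_mul, Complex.norm_real, Real.norm_eq_abs,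
    abs_of_pos (by positivity), Complex.norm_exp, Complex.norm_exp]
  have h1 : (-((σ + I * y) * (Real.log (2 * Real.pi) : ℝ)) : ℂ).re = -(σ * Real.log (2 * Real.pi)) := by
    simp
  have h2 : (((σ : ℂ) + I * y) ^ 2).re = σ ^ 2 + -1 * y ^ 2 := by
    simp [pow_two]
    ring
  rw [h1, h2, Real.exp_add]
  have h3 : Real.exp (-(σ * Real.log (2 * Real.pi))) ≤ 1 := by
    rw [Real.exp_le_one_iff]
    have : 0 ≤ Real.log (2 * Real.pi) := Real.log_nonneg (by linarith [Real.pi_gt_three])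
    have := mul_nonneg hσ.le this
    linarith
  have h4 := norm_s σ y hσ
  have h5 : Real.exp (-(σ * Real.log (2 * Real.pi))) * (Real.exp (σ ^ 2) * Real.exp (-1 * y ^ 2)) /
      ‖(σ : ℂ) + I * y‖ ≤ 1 * (Real.exp (σ ^ 2) * Real.exp (-1 * y ^ 2)) / σ := by
    gcongr
  calc Real.pi⁻¹ * T ^ σ * (Real.exp (-(σ * Real.log (2 * Real.pi))) *
        (Real.exp (σ ^ 2) * Real.exp (-1 * y ^ 2)) / ‖(σ : ℂ) + I * y‖)
      ≤ Real.pi⁻¹ * T ^ σ * (1 * (Real.exp (σ ^ 2) * Real.exp (-1 * y ^ 2)) / σ) := by gcongr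
    _ = _ := by ring

lemma KK_cont (σ T : ℝ) (hσ : 0 < σ) : Continuous (KK σ T) := by
  unfold KK
  refine continuous_const.mul ?_
  refine Continuous.div ?_ ?_ (fun y => s_ne σ y hσ)
  · fun_prop
  · fun_prop

lemma cp_cont (σ : ℝ) (p : ℕ × ℕ) : Continuous (cp σ p) := by
  unfold cp
  fun_prop

lemma cp_norm (σ : ℝ) (p : ℕ × ℕ) (y : ℝ) : ‖cp σ p y‖ = ‖cp σ p 0‖ := by
  unfold cp
  rw [norm_mul, norm_mul, Complex.norm_exp, Complex.norm_exp]
  simp

lemma KK_int (σ T : ℝ) (hσ : 0 < σ) (hT : 0 < T) : Integrable (KK σ T) := by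
  refine Integrable.mono' (g := fun y => Real.pi⁻¹ * T ^ σ * (Real.exp (σ ^ 2) / σ) *
    Real.exp (-1 * y ^ 2)) ((integrable_exp_neg_mul_sq (b := 1) one_pos).const_mul _)
    (KK_cont σ T hσ).aestronglyMeasurable (Eventually.of_forall fun y => norm_KK σ T y hσ hT)

lemma gw_meas (b : ℕ) (T : ℝ) : Measurable (gw b T) := by
  unfold gw
  fun_prop

lemma Ph_meas (σ T τ : ℝ) (b : ℕ) (p : ℕ × ℕ) (hσ : 0 < σ) :
    Measurable (fun z : ℝ × ℝ => Ph σ T τ b p z.1 z.2) := by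
  unfold Ph
  have h1 := (KK_cont σ T hσ).measurable
  have h2 := (cp_cont σ p).measurable
  have h3 := gw_meas b T
  refine Measurable.mul (Measurable.mul (h1.comp measurable_snd) (h2.comp measurable_snd)) ?_
  refine Measurable.mul ?_ ?_
  · exact Complex.measurable_ofReal.comp (h3.comp measurable_fst)
  · refine Complex.measurable_exp.comp ?_
    refine Measurable.mul measurable_const ?_
    refine Complex.measurable_ofReal.comp ?_
    refine Measurable.sub (measurable_fst.mul_const _) ?_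
    exact (measurable_const.sub measurable_snd).mul (Real.measurable_log.comp measurable_fst)

lemma Ph_norm (σ T τ : ℝ) (b : ℕ) (p : ℕ × ℕ) (u y : ℝ) :
    ‖Ph σ T τ b p u y‖ = ‖gw b T u‖ * (‖cp σ p 0‖ * ‖KK σ T y‖) := by
  unfold Ph
  rw [norm_mul, norm_mul, norm_mul, cp_norm, Complex.norm_real, mul_comm I, Complex.norm_exp_ofReal_mul_I]
  ring

lemma Ph_int (σ T τ : ℝ) (b : ℕ) (p : ℕ × ℕ) (hσ : 0 < σ) (hT : 0 < T) (hb : 1 ≤ b) :
    Integrable (Function.uncurry (Ph σ T τ b p)) ((volume.restrict (Ioi 0)).prod volume) := by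
  have h1 : Integrable (fun u => ‖gw b T u‖) (volume.restrict (Ioi (0 : ℝ))) :=
    (gw_int b T hb hT).norm
  have h2 : Integrable (fun y => ‖cp σ p 0‖ * ‖KK σ T y‖) := (KK_int σ T hσ hT).norm.const_mul _
  have h3 := h1.mul_prod h2
  refine Integrable.mono' h3 (Ph_meas σ T τ b p hσ).aestronglyMeasurable
    (Eventually.of_forall fun z => ?_)
  simp only [Function.uncurry]
  exact (Ph_norm σ T τ b p z.1 z.2).le

lemma int_u (σ T τ : ℝ) (b : ℕ) (p : ℕ × ℕ) (y : ℝ) :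
    ∫ u in Ioi (0 : ℝ), Ph σ T τ b p u y = KK σ T y * bt σ b T y (τ - y) p.1 p.2 := by
  unfold Ph bt GG
  rw [integral_const_mul]
  simp only [cp, gw]
  ring

lemma W_id (σ T u : ℝ) (b : ℕ) (hT : 0 < T) (hu : 0 < u) :
    W ((b : ℝ) - σ) T u * u ^ σ = T ^ σ * gw b T u := by
  unfold W gw
  have h1 : (u / T) ^ ((b : ℝ) - σ) = (u / T) ^ b / (u / T) ^ σ := by
    rw [Real.rpow_sub (by positivity), Real.rpow_natCast]
  rw [h1, Real.div_rpow hu.le hT.le]
  have h2 : u ^ σ ≠ 0 := (Real.rpow_pos_of_pos hu _).ne'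
  have h3 : T ^ σ ≠ 0 := (Real.rpow_pos_of_pos hT _).ne'
  field_simp

lemma point (hV : Pool.Agent.Y969.GP.S_V) (σ T τ u : ℝ) (b : ℕ) (p : ℕ × ℕ) (hσ : 0 < σ)
    (hT : 0 < T) (hu : 0 < u) (h1 : 0 < p.1) (h2 : 0 < p.2) :
    (W ((b : ℝ) - σ) T u : ℂ) * ((co p u : ℂ) * cexp (I * ((u * lam p : ℝ) : ℂ))) *
      cexp (-(I * ((τ * Real.log u : ℝ) : ℂ))) = ∫ y : ℝ, Ph σ T τ b p u y := by
  have hp := Real.pi_pos
  have h1' : (0 : ℝ) < p.1 := by exact_mod_cast h1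
  have h2' : (0 : ℝ) < p.2 := by exact_mod_cast h2
  have hh : 0 < ht p := by unfold ht; positivity
  have hx : 0 < 2 * Real.pi * ht p / u := by positivity
  have hVx := hV.2.2.2.2.2.2 σ _ hσ hx
  have hlog : Real.log (2 * Real.pi * ht p / u) =
      Real.log (2 * Real.pi) + Real.log ((p.1 : ℝ) * p.2) - Real.log u := by
    unfold ht
    rw [Real.log_div (by positivity) hu.ne', Real.log_mul (by positivity) (by positivity)]
  have hco : (co p u : ℂ) = ((2 * (√((p.1 : ℝ) * p.2))⁻¹ : ℝ) : ℂ) *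
      ((V (2 * Real.pi * ht p / u) : ℝ) : ℂ) := by
    unfold co
    rw [← Complex.ofReal_mul]
    rfl
  rw [hco, hVx, hlog]
  have e : ∀ y : ℝ, Ph σ T τ b p u y =
      ((W ((b : ℝ) - σ) T u : ℂ) * ((2 * (√((p.1 : ℝ) * p.2))⁻¹ : ℝ) : ℂ) *
        ((2 * Real.pi : ℝ) : ℂ)⁻¹ * cexp (I * ((u * lam p : ℝ) : ℂ)) *
        cexp (-(I * ((τ * Real.log u : ℝ) : ℂ)))) *
      (cexp (-((σ + I * y) * ((Real.log (2 * Real.pi) + Real.log ((p.1 : ℝ) * p.2) - Real.log u : ℝ) : ℂ))) *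
        cexp ((σ + I * y) ^ 2) / (σ + I * y)) := by
    intro y
    have e1 : cexp (-((σ + I * y) * ((Real.log (2 * Real.pi) + Real.log ((p.1 : ℝ) * p.2) -
        Real.log u : ℝ) : ℂ))) = cexp (-((σ + I * y) * (Real.log (2 * Real.pi) : ℝ))) *
        cexp (-((σ + I * y) * (Real.log ((p.1 : ℝ) * p.2) : ℝ))) *
        (((u ^ σ : ℝ) : ℂ) * cexp (I * ((y * Real.log u : ℝ) : ℂ))) := by
      rw [Real.rpow_def_of_pos hu, Complex.ofReal_exp, ← Complex.exp_add, ← Complex.exp_add,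
        ← Complex.exp_add]
      congr 1
      push_cast
      ring
    have e2 : cexp (I * ((u * (Real.log p.2 - Real.log p.1) - (τ - y) * Real.log u : ℝ) : ℂ)) =
        cexp (I * ((u * lam p : ℝ) : ℂ)) * cexp (-(I * ((τ * Real.log u : ℝ) : ℂ))) *
          cexp (I * ((y * Real.log u : ℝ) : ℂ)) := by
      rw [← Complex.exp_add, ← Complex.exp_add]
      congr 1
      unfold lam
      push_cast
      ring
    have e3 : (W ((b : ℝ) - σ) T u : ℂ) * ((u ^ σ : ℝ) : ℂ) = ((T ^ σ : ℝ) : ℂ) * (gw b T u : ℂ) := by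
      rw [← Complex.ofReal_mul, W_id σ T u b hT hu, Complex.ofReal_mul]
    have hpc : (Real.pi : ℂ) ≠ 0 := by exact_mod_cast hp.ne'
    unfold Ph KK cp
    rw [e1, e2]
    have hs := s_ne σ y hσ
    generalize cexp (-((σ + I * y) * (Real.log (2 * Real.pi) : ℝ))) = A1
    generalize cexp (-((σ + I * y) * (Real.log ((p.1 : ℝ) * p.2) : ℝ))) = A2
    generalize cexp (I * ((u * lam p : ℝ) : ℂ)) = A3
    generalize cexp (-(I * ((τ * Real.log u : ℝ) : ℂ))) = A4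
    generalize cexp (I * ((y * Real.log u : ℝ) : ℂ)) = A5
    generalize cexp (((σ : ℂ) + I * y) ^ 2) = A6
    calc _ = (((T ^ σ : ℝ) : ℂ) * (gw b T u : ℂ)) * ((Real.pi : ℂ)⁻¹ *
          ((((√((p.1 : ℝ) * p.2))⁻¹ : ℝ) : ℂ) * A2 * A1 * A3 * A4 * A5 * A6 / (σ + I * y))) := by
          push_cast
          ring
      _ = ((W ((b : ℝ) - σ) T u : ℂ) * ((u ^ σ : ℝ) : ℂ)) * ((Real.pi : ℂ)⁻¹ *
          ((((√((p.1 : ℝ) * p.2))⁻¹ : ℝ) : ℂ) * A2 * A1 * A3 * A4 * A5 * A6 / (σ + I * y))) := by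
          rw [e3]
      _ = _ := by
          push_cast
          field_simp
  rw [integral_congr_ae (Eventually.of_forall e), integral_const_mul]
  ring

theorem t_OFI' (hV : Pool.Agent.Y969.GP.S_V) : S_SUM → S_OFI := by
  rintro ⟨ε, δ, b, hε, hε4, hδ, hδ1, hb, C, T₀, hC, hT₀, h⟩
  have hσ : 0 < δ / 2 := by linarith
  obtain ⟨σ, hσe⟩ : ∃ σ, σ = δ / 2 := ⟨_, rfl⟩
  rw [← hσe] at hσ
  have hσ1 : σ ≤ 1 / 2 := by linarith
  have hp := Real.pi_pos
  obtain ⟨M, hM⟩ : ∃ M, M = ∫ y : ℝ, (1 + |y|) * Real.exp (-1 * y ^ 2) := ⟨_, rfl⟩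
  have hMi : Integrable (fun y : ℝ => (1 + |y|) * Real.exp (-1 * y ^ 2)) := by
    have i1 := integrable_exp_neg_mul_sq (b := 1) one_pos
    have i2 := (integrable_mul_exp_neg_mul_sq (b := 1) one_pos).abs
    refine (i1.add i2).congr (Eventually.of_forall fun y => ?_)
    simp only [Pi.add_apply]
    rw [abs_mul, abs_of_pos (Real.exp_pos _)]
    ring
  have hM0 : 0 ≤ M := by
    rw [hM]
    exact integral_nonneg fun y => by positivity
  have hb4 : (4 : ℝ) ≤ b := by exact_mod_cast hb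
  refine ⟨(b : ℝ) - σ, ε, δ / 2, by linarith, hε, hε4, by linarith, by linarith,
    Real.pi⁻¹ * (Real.exp (σ ^ 2) / σ) * C * M + 1, T₀, by positivity, hT₀, ?_⟩
  intro T τ X hT hX1 hX2
  have hT0 : 0 < T := by linarith
  have hTr : 0 < T ^ σ := Real.rpow_pos_of_pos hT0 _
  obtain ⟨S, hS⟩ : ∃ S, S = (PS X).filter (fun p => p.1 ≠ p.2) := ⟨_, rfl⟩
  have hSp : ∀ p ∈ S, 0 < p.1 ∧ 0 < p.2 := by
    intro p hpS
    rw [hS, Finset.mem_filter] at hpS
    have h1 := hpS.1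
    unfold PS at h1
    rw [Finset.mem_filter, Finset.mem_product, Finset.mem_Icc, Finset.mem_Icc] at h1
    omega
  have hb1 : 1 ≤ b := by omega
  -- the integrand
  have key : ∫ u in Ioi (0 : ℝ), (W ((b : ℝ) - σ) T u : ℂ) * (∑ p ∈ S,
      (co p u : ℂ) * cexp (I * ((u * lam p : ℝ) : ℂ))) *
      cexp (-(I * ((τ * Real.log u : ℝ) : ℂ))) =
      ∫ y : ℝ, KK σ T y * ∑ p ∈ S, bt σ b T y (τ - y) p.1 p.2 := by
    calc _ = ∫ u in Ioi (0 : ℝ), ∑ p ∈ S, ∫ y : ℝ, Ph σ T τ b p u y := by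
          refine setIntegral_congr_fun measurableSet_Ioi fun u hu => ?_
          rw [Finset.mul_sum, Finset.sum_mul]
          refine Finset.sum_congr rfl fun p hpS => ?_
          exact point hV σ T τ u b p hσ hT0 hu (hSp p hpS).1 (hSp p hpS).2
      _ = ∑ p ∈ S, ∫ u in Ioi (0 : ℝ), ∫ y : ℝ, Ph σ T τ b p u y := by
          rw [integral_finsetSum]
          intro p _
          exact (Ph_int σ T τ b p hσ hT0 hb1).integral_prod_left
      _ = ∑ p ∈ S, ∫ y : ℝ, KK σ T y * bt σ b T y (τ - y) p.1 p.2 := by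
          refine Finset.sum_congr rfl fun p _ => ?_
          rw [integral_integral_swap (Ph_int σ T τ b p hσ hT0 hb1)]
          refine integral_congr_ae (Eventually.of_forall fun y => ?_)
          exact int_u σ T τ b p y
      _ = ∫ y : ℝ, ∑ p ∈ S, KK σ T y * bt σ b T y (τ - y) p.1 p.2 := by
          rw [integral_finsetSum]
          intro p _
          have h3 := (Ph_int σ T τ b p hσ hT0 hb1).integral_prod_right
          refine h3.congr (Eventually.of_forall fun y => ?_)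
          exact int_u σ T τ b p y
      _ = _ := by
          refine integral_congr_ae (Eventually.of_forall fun y => ?_)
          simp only
          rw [Finset.mul_sum]
  rw [← hS, key]
  have hbd : ∀ y : ℝ, ‖KK σ T y * ∑ p ∈ S, bt σ b T y (τ - y) p.1 p.2‖ ≤
      (Real.pi⁻¹ * (Real.exp (σ ^ 2) / σ) * C * (T ^ σ * T ^ (-δ))) *
        ((1 + |y|) * Real.exp (-1 * y ^ 2)) := by
    intro y
    rw [norm_mul]
    have g1 := norm_KK σ T y hσ hT0
    have g2 := h σ T y (τ - y) X hσ.le (by linarith) hT hX1 hX2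
    rw [← hS] at g2
    calc ‖KK σ T y‖ * ‖∑ p ∈ S, bt σ b T y (τ - y) p.1 p.2‖
        ≤ (Real.pi⁻¹ * T ^ σ * (Real.exp (σ ^ 2) / σ) * Real.exp (-1 * y ^ 2)) *
          (C * (1 + |y|) * T ^ (-δ)) := mul_le_mul g1 g2 (norm_nonneg _) (by positivity)
      _ = _ := by ring
  have h4 := norm_integral_le_of_norm_le (hMi.const_mul
    (Real.pi⁻¹ * (Real.exp (σ ^ 2) / σ) * C * (T ^ σ * T ^ (-δ)))) (Eventually.of_forall hbd)
  refine h4.trans ?_
  rw [integral_const_mul, ← hM]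
  have h5 : T ^ σ * T ^ (-δ) = T ^ (-(δ / 2)) := by
    rw [← Real.rpow_add hT0]
    congr 1
    rw [hσe]
    ring
  rw [h5]
  have h6 : 0 < T ^ (-(δ / 2)) := Real.rpow_pos_of_pos hT0 _
  nlinarith

theorem t_OFI : S_SUM → S_OFI := t_OFI' Pool.Agent.Y587.GP.t_V

end

end Pool.Agent.J4H25.GD
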